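import Pool.Agent.Helper59_Flow.Final
import Pool.Agent.Helper14_Flow.A
import Pool.Agent.Helper68_Cuts.Main
import Pool.Agent.Helper56_FB.FB
import Pool.Agent.Helper13_Flow.D

/-!
# The 3-torus is not the orbit space of a flow on (ℝ² ∖ S) × ℝ²

For every closed discrete subset `S` of the plane, no `C¹` flow on `(ℝ² ∖ S) × ℝ²` (with arbitrary
fixed-point set) has the 3-torus as its orbit space.

The definitions used in the statement are in `Pool.Agent.Helper59_Flow.Defs`:

* `space S` is the subset `(ℝ² ∖ S) × ℝ²` of `ℂ × ℂ`;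
* `IsFlow S φ`: `φ` is a `C¹` flow on `space S`;
* `torus` is the set of triples of complex numbers of modulus one;
* `IsTorusQuotient S φ q`: `q` is a continuous quotient map of `space S` onto the torus whose
  fibres are the orbits of `φ`, and it is a `C¹` submersion away from the fixed points.
-/

set_option autoImplicit false

namespace Pool.Agent.Results.MP_59a510_gt.TorusNotOrbitSpace

open Pool.Agent.Helper59_Flow

/-- For every closed discrete `S ⊆ ℝ²` the 3-torus is not the orbit space of any flow on
`(ℝ² ∖ S) × ℝ²`. -/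
theorem result (S : Set ℂ) (hclosed : IsClosed S) (hdiscrete : DiscreteTopology S) :
    ¬ ∃ (φ : ℝ → ℂ × ℂ → ℂ × ℂ) (q : ℂ × ℂ → Fin 3 → ℂ),
      IsFlow S φ ∧ IsTorusQuotient S φ q := by
  refine final moduleA Pool.Agent.Helper68_Cuts.bStatement (D fb) S hclosed fun R => ?_
  have h1 : IsCompact (S ∩ Metric.closedBall 0 R) := (isCompact_closedBall 0 R).inter_left hclosed
  have h2 : DiscreteTopology ↥(S ∩ Metric.closedBall (0 : ℂ) R) :=
    DiscreteTopology.of_subset hdiscrete Set.inter_subset_left
  have h3 : CompactSpace ↥(S ∩ Metric.closedBall (0 : ℂ) R) := isCompact_iff_compactSpace.1 h1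
  have h4 : Finite ↥(S ∩ Metric.closedBall (0 : ℂ) R) := finite_of_compact_of_discrete
  exact h4

end Pool.Agent.Results.MP_59a510_gt.TorusNotOrbitSpace
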